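import Pool.Agent.Q93.LT.Fld
import Pool.Agent.Q100.HM.Basic

/-!
# The `H`-moments of the `p`-parts of the class groups of the imaginary quadratic fields whose radicands arise from an arbitrary
integer by changing a few digits

`p` is a prime number and `H ≅ ∏ ℤ/p^(a_i)`, `i < s`, an arbitrary finite abelian `p`-group. Take an arbitrary integer `N` with `K`
digits in base `b` and change `r ≤ K / 2` of its digits. The average over the choices of the `r` positions of the number of the
surjective homomorphisms `Cl(ℚ(√-m))[p^∞] → H` is at most `C (b ^ (K / 2) exp (- c r)) ^ s`: for `r` proportional to `K` this saves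
a power of the size `b ^ K` of the discriminants over the trivial bound, for every cyclic factor of `H`.
-/

set_option autoImplicit false

namespace Pool.Agent.Results.MP_0f260b_nt.FewDigitMoments

open Finset
open scoped NumberField

/-- The digit number `i` (counted from the right, beginning with `0`) of `n` in base `b`. -/
def digit (b i n : ℕ) : ℕ := n / b ^ i % b

/-- The number which arises from the number `N` with at most `K` digits in base `b`, if for every `i ∈ S`
the digit number `i` is replaced by `f i`. -/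
def change (b K N : ℕ) (f : ℕ → ℕ) (S : Finset ℕ) : ℕ :=
  ∑ i ∈ range K, (if i ∈ S then f i else digit b i N) * b ^ i

/-- The field `ℚ(√-m)`, as a subfield of `ℂ`. -/
noncomputable def field (m : ℕ) : IntermediateField ℚ ℂ := IntermediateField.adjoin ℚ {(Real.sqrt m : ℂ) * Complex.I}

/-- The class group of the ring of integers of `ℚ(√-m)`. -/
abbrev Cl (m : ℕ) : Type := ClassGroup (𝓞 (field m))

/-- The `p`-part `A[p^∞]` of a commutative group `A`. -/
def PPart (p : ℕ) (A : Type*) [CommGroup A] : Subgroup A :=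
  Subgroup.closure {g : A | ∃ n : ℕ, g ^ (p ^ n) = 1}

/-- `#Sur(A[p^∞], H)`. -/
noncomputable def surjections (p : ℕ) (A H : Type) [CommGroup A] [CommGroup H] : ℕ :=
  Nat.card {f : PPart p A →* H // Function.Surjective f}

/-- Let `p` be a prime number, `H ≅ ∏ ℤ/p^(a_i)`, `i < s`, and `b ≥ 2`. There are `c, C > 0` such that for all `K`, all `r ≤ K / 2`,
every integer `0 ≤ N < b ^ K` and every prescription `f` of a new digit (different from the digit of `N`) for every position: the sum
of `#Sur(Cl(ℚ(√-m))[p^∞], H)` over all choices `S` of `r` of the `K` positions for which the number `m` obtained from `N` by replacing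
the digits at the positions in `S` is not `0` is at most `C (b ^ (K / 2) exp (- c r)) ^ s` times the number of the choices. -/
theorem result (p : ℕ) (hp : p.Prime) (s : ℕ) (a : Fin s → ℕ) (H : Type) [CommGroup H]
    (e : H ≃* (∀ i, Multiplicative (ZMod (p ^ a i)))) (b : ℕ) (hb : 2 ≤ b) :
    ∃ c : ℝ, 0 < c ∧ ∃ C : ℝ, 0 < C ∧ ∀ (K r N : ℕ) (f : ℕ → ℕ), 2 * r ≤ K → N < b ^ K →
      (∀ j, f j < b ∧ f j ≠ digit b j N) →
      ∑ S ∈ (powersetCard r (range K)).filter (fun S => change b K N f S ≠ 0), (surjections p (Cl (change b K N f S)) H : ℝ) ≤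
        C * (Real.sqrt ((b : ℝ) ^ K) * Real.exp (-(c * r))) ^ s * K.choose r := by
  classical
  have hl : ∀ i, 1 ≤ p ^ a i := fun i => Nat.one_le_pow _ _ hp.pos
  have hne : ∀ i, NeZero (p ^ a i) := fun i => ⟨(pow_pos hp.pos _).ne'⟩
  obtain ⟨l, hl0, hdvd⟩ : ∃ l : ℕ, 1 ≤ l ∧ ∀ i, p ^ a i ∣ l :=
    ⟨∏ i, p ^ a i, Nat.one_le_iff_ne_zero.2 (prod_ne_zero_iff.2 fun i _ => (hl i).trans_lt' one_pos |>.ne'), fun i =>
      dvd_prod_of_mem _ (mem_univ i)⟩
  obtain ⟨c, hc, C, hC, h⟩ := Pool.Agent.Q93.LT.moment false l hl0 s hb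
  refine ⟨c, hc, C, hC, fun K r N f hr hN hf => ?_⟩
  have h1 := h K r N f hr hN hf ((powersetCard r (range K)).filter (fun S => change b K N f S ≠ 0))
    (fun m => Nat.card {c : Cl m // c ^ l = 1}) (filter_subset _ _) (by
      intro S hS
      rw [mem_filter] at hS
      obtain ⟨_, -, h2⟩ := Pool.Agent.Q93.LT.imag_tor (change b K N f S) hS.2
      exact h2 l)
  refine le_trans (sum_le_sum ?_) h1
  intro S hS
  rw [mem_filter] at hS
  obtain ⟨hnf, -, -⟩ := Pool.Agent.Q93.LT.imag_tor (change b K N f S) hS.2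
  obtain ⟨m, hm⟩ : ∃ m, m = change b K N f S := ⟨_, rfl⟩
  rw [← hm] at hnf
  have hm' : Pool.Agent.Q235.FD.change b K N f S = m := hm.symm
  rw [hm', ← hm]
  have : NumberField (field m) := hnf
  have h2 : (surjections p (Cl m) H) ≤ ∏ i, Pool.Agent.Q100.HM.tor (Cl m) (p ^ a i) :=
    Pool.Agent.Q100.HM.surP_le p (Cl m) H s (fun i => p ^ a i) e
  have h3 : ∀ i, Pool.Agent.Q100.HM.tor (Cl m) (p ^ a i) ≤ Nat.card {c : Cl m // c ^ l = 1} := by
    intro i
    unfold Pool.Agent.Q100.HM.tor
    obtain ⟨k, hk⟩ := hdvd i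
    refine Nat.card_le_card_of_injective (fun c : {c : Cl m // c ^ (p ^ a i) = 1} =>
      (⟨c.1, by rw [hk, pow_mul, c.2, one_pow]⟩ : {c : Cl m // c ^ l = 1})) ?_
    intro c c' hcc
    exact Subtype.ext (congrArg (fun z : {c : Cl m // c ^ l = 1} => z.1) hcc)
  have h4 : (surjections p (Cl m) H) ≤ (Nat.card {c : Cl m // c ^ l = 1}) ^ s := by
    refine h2.trans ?_
    have := prod_le_prod' (s := (univ : Finset (Fin s))) (fun i _ => h3 i)
    rwa [prod_const, card_univ, Fintype.card_fin] at this
  exact_mod_cast h4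

end Pool.Agent.Results.MP_0f260b_nt.FewDigitMoments
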