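import Pool.Agent.Q56.WL.Tors
import Pool.Agent.Q100.HM.Basic

/-!
# The `H`-moments of the `p`-parts of the class groups of ALL imaginary quadratic fields with radicands in windows near powers

`p` is a prime number and `H ≅ ∏ ℤ/p^(a_i)`, `i < s`, an arbitrary finite abelian `p`-group. Let `e > 1` be not an integer. Choose,
for every `i ≤ X`, ANY integer `m i` in the window of length `X ^ c` around `β + w i ^ e`. The average over `i ≤ X` of the number of
the surjective homomorphisms `Cl(ℚ(√-(m i)))[p^∞] → H` is at most `C ((|β| + X ^ e) ^ (1/2) X ^ (- c)) ^ s`: a power saving over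
the trivial bound for every cyclic factor of `H`, along sparse sequences of radicands (only `X` of about `X ^ e`), for the
maximum over the windows.

Proof. Many small split primes give bounds for the torsion of the class group (Ellenberg–Venkatesh, in the deterministic form of
`Pool.Agent.Q93.LT`). The number of the split primes up to a small power of `X` is controlled for all integers in the windows at
the same time, with high moments and estimates of exponential sums (van der Corput) (`Pool.Agent.Q56.WL.gen`).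
-/

set_option autoImplicit false

namespace Pool.Agent.Results.MP_0f260b_nt.NearPowers

open Finset
open scoped NumberField

/-- The field `ℚ(√-m)`, as a subfield of `ℂ`. -/
noncomputable def field (m : ℕ) : IntermediateField ℚ ℂ := IntermediateField.adjoin ℚ {(Real.sqrt m : ℂ) * Complex.I}

/-- The class group of the ring of integers of `ℚ(√-m)`. -/
abbrev Cl (m : ℕ) : Type := ClassGroup (𝓞 (field m))

/-- The `p`-part `A[p^∞]` of a commutative group `A`. -/
def PPart (p : ℕ) (A : Type*) [CommGroup A] : Subgroup A :=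
  Subgroup.closure {g : A | ∃ n : ℕ, g ^ (p ^ n) = 1}

/-- `#Sur(A[p^∞], H)`. -/
noncomputable def surjections (p : ℕ) (A H : Type) [CommGroup A] [CommGroup H] : ℕ :=
  Nat.card {f : PPart p A →* H // Function.Surjective f}

/-- Let `p` be a prime number, `H ≅ ∏ ℤ/p^(a_i)`, `i < s`, let `E > 1` be not an integer and `w ≠ 0`. There are `c, C > 0` such that
for all real `β`, all `X` and all integers `m i ≥ 0` with `|m i - (β + w i ^ E)| ≤ X ^ c` (`1 ≤ i ≤ X`): the sum of
`#Sur(Cl(ℚ(√-(m i)))[p^∞], H)` over the `i ≤ X` with `m i ≠ 0` is at most `C ((|β| + X ^ E) ^ (1 / 2) X ^ (- c)) ^ s X`. -/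
theorem result (p : ℕ) (hp : p.Prime) (s : ℕ) (a : Fin s → ℕ) (H : Type) [CommGroup H]
    (e : H ≃* (∀ i, Multiplicative (ZMod (p ^ a i)))) (E w : ℝ) (hE : 1 < E) (hk : ∀ k : ℕ, E ≠ k) (hw : w ≠ 0) :
    ∃ c : ℝ, 0 < c ∧ ∃ C : ℝ, 0 < C ∧ ∀ (β : ℝ) (X : ℕ) (m : ℕ → ℕ),
      (∀ i ∈ Icc 1 X, |(m i : ℝ) - (β + w * (i : ℝ) ^ E)| ≤ (X : ℝ) ^ c) →
      ∑ i ∈ (Icc 1 X).filter (fun i => m i ≠ 0), (surjections p (Cl (m i)) H : ℝ) ≤
        C * (Real.sqrt (|β| + (X : ℝ) ^ E) * (X : ℝ) ^ (-c)) ^ s * X := by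
  classical
  have hl : ∀ i, 1 ≤ p ^ a i := fun i => Nat.one_le_pow _ _ hp.pos
  have hne : ∀ i, NeZero (p ^ a i) := fun i => ⟨(pow_pos hp.pos _).ne'⟩
  obtain ⟨l, hl0, hdvd⟩ : ∃ l : ℕ, 1 ≤ l ∧ ∀ i, p ^ a i ∣ l :=
    ⟨∏ i, p ^ a i, Nat.one_le_iff_ne_zero.2 (prod_ne_zero_iff.2 fun i _ => (hl i).trans_lt' one_pos |>.ne'), fun i =>
      dvd_prod_of_mem _ (mem_univ i)⟩
  obtain ⟨c, hc, C, hC, h⟩ := Pool.Agent.Q56.WL.moment_near false l hl0 s hE hk hw
  refine ⟨c, hc, C, hC, fun β X m hm => ?_⟩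
  have h1 := h β X ((Icc 1 X).filter (fun i => m i ≠ 0)) m (fun i => Nat.card {c : Cl (m i) // c ^ l = 1}) (filter_subset _ _) (by
      intro i hi
      rw [mem_filter] at hi
      obtain ⟨_, -, h2⟩ := Pool.Agent.Q93.LT.imag_tor (m i) hi.2
      exact ⟨hm i hi.1, h2 l⟩)
  refine le_trans (sum_le_sum ?_) h1
  intro i hi
  rw [mem_filter] at hi
  obtain ⟨hnf, -, -⟩ := Pool.Agent.Q93.LT.imag_tor (m i) hi.2
  have : NumberField (field (m i)) := hnf
  have h2 : (surjections p (Cl (m i)) H) ≤ ∏ j, Pool.Agent.Q100.HM.tor (Cl (m i)) (p ^ a j) :=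
    Pool.Agent.Q100.HM.surP_le p (Cl (m i)) H s (fun j => p ^ a j) e
  have h3 : ∀ j, Pool.Agent.Q100.HM.tor (Cl (m i)) (p ^ a j) ≤ Nat.card {c : Cl (m i) // c ^ l = 1} := by
    intro j
    unfold Pool.Agent.Q100.HM.tor
    obtain ⟨k, hk⟩ := hdvd j
    refine Nat.card_le_card_of_injective (fun c : {c : Cl (m i) // c ^ (p ^ a j) = 1} =>
      (⟨c.1, by rw [hk, pow_mul, c.2, one_pow]⟩ : {c : Cl (m i) // c ^ l = 1})) ?_
    intro c c' hcc
    exact Subtype.ext (congrArg (fun z : {c : Cl (m i) // c ^ l = 1} => z.1) hcc)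
  have h4 : (surjections p (Cl (m i)) H) ≤ (Nat.card {c : Cl (m i) // c ^ l = 1}) ^ s := by
    refine h2.trans ?_
    have := prod_le_prod' (s := (univ : Finset (Fin s))) (fun j _ => h3 j)
    rwa [prod_const, card_univ, Fintype.card_fin] at this
  exact_mod_cast h4

end Pool.Agent.Results.MP_0f260b_nt.NearPowers
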