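import Pool.Agent.Y159.TG.Fin
import Pool.Agent.Y542.TQ.Sup
import Pool.Agent.Y495.TG.LS
import Pool.Agent.Y759.TG.Res
import Pool.Agent.Y907.TG.Sm
import Pool.Agent.Y261.TG.Cnt
import Pool.Agent.Y495.TG.Grow
import Pool.Agent.Q100.HM.Fields

set_option autoImplicit false

/-!
# The `H`-moments of the `p`-parts of the class groups of the imaginary quadratic fields of
discriminant `f(t)`

`p` is a prime number, `H ≅ ∏ ℤ/p^(a_i)`, `i < r`, an arbitrary finite abelian `p`-group and `f` a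
polynomial of degree `n ≥ 1` with integer coefficients which is not a constant times the square of a
polynomial.  The number of surjective homomorphisms `Cl(K)[p^∞] → H` is bounded in the mean over the
imaginary quadratic fields `K` of discriminant `f(t)`, `|t| ≤ T`, by
`T ^ ε ∏_i (T ^ n) ^ (1/2 - (n + 1) / (2 n (p^(a_i) + r)))`, and similarly for `t` in short intervals.
-/

open NumberField Polynomial

namespace Pool.Agent.Results.MP_0f260b_nt.PolynomialFamilyMoments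

/-- The `p`-part `A[p^∞]` of a commutative group `A`. -/
def PPart (p : ℕ) (A : Type*) [CommGroup A] : Subgroup A :=
  Subgroup.closure {g : A | ∃ n : ℕ, g ^ (p ^ n) = 1}

/-- A subfield of `ℂ`. -/
abbrev Fld : Type := IntermediateField ℚ ℂ

/-- The class group of the ring of integers of `K`. -/
abbrev Cl (K : Fld) : Type := ClassGroup (𝓞 K)

/-- `#Sur(A[p^∞], H)`. -/
noncomputable def surjections (p : ℕ) (A H : Type) [CommGroup A] [CommGroup H] : ℕ :=
  Nat.card {f : PPart p A →* H // Function.Surjective f}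

/-- `K` is a quadratic field. -/
def Quadratic (K : Fld) : Prop := Module.finrank ℚ K = 2

/-- `K` is the imaginary quadratic field of discriminant `D`. -/
def ImaginaryQuadratic (D : ℤ) (K : Fld) : Prop :=
  Quadratic K ∧ (∃ x : K, (x : ℂ).im ≠ 0) ∧ ∃ _ : NumberField K, discr K = D

/-- `f` is not of the form `c g²` with `c ∈ ℚ` and `g ∈ ℚ[X]`. -/
def NotSquare (f : ℤ[X]) : Prop :=
  ∀ (c : ℚ) (g : ℚ[X]), f.map (Int.castRingHom ℚ) ≠ C c * g ^ 2

/-- The bound `√(N ^ n) / (h N ^ n) ^ (1 / (2 (l + r)))` for the `r`-th root of the `r`-th moment of the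
number of elements of the class group killed by `l`, for discriminants of the size `N ^ n`. -/
noncomputable def scale (n l r : ℕ) (N h : ℝ) : ℝ :=
  √(N ^ n) / (h * N ^ n) ^ (1 / (2 * ((l : ℝ) + r)))

/-- The interval `[N, N + h]` is not too short: `(h N ^ n) ^ (3 r / (2 (l + r))) ≤ h`. -/
def LongEnough (n l r : ℕ) (N h : ℝ) : Prop :=
  (h * N ^ n) ^ (3 * (r : ℝ) / (2 * ((l : ℝ) + r))) ≤ h

/-- The exponent `n / 2 - (n + 1) / (2 (l + r))`. -/
noncomputable def expo (n l r : ℕ) : ℝ := (n : ℝ) / 2 - ((n : ℝ) + 1) / (2 * ((l : ℝ) + r))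

/-- **Theorem.** Let `f ∈ ℤ[X]` be of degree `n` and not of the form `c g²`, let `p` be a prime number,
`r ≥ 1`, `a_i ≥ 0` for `i < r`, `H ≅ ∏ ℤ/p^(a_i)` and `ε > 0`.  There is a constant `C` such that:

* for all real numbers `1 ≤ h ≤ N` with `(h N ^ n) ^ (3 r / (2 (p^(a_i) + r))) ≤ h` for all `i`, all
  finite sets `S` of integers `t` with `N ≤ |t| ≤ N + h` and imaginary quadratic fields `K_t` of
  discriminant `f(t)`,
  `∑_{t ∈ S} #Sur(Cl(K_t)[p^∞], H) ≤ C N ^ ε h ∏_i √(N ^ n) / (h N ^ n) ^ (1 / (2 (p^(a_i) + r)))`;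
* if `3 r (n + 1) ≤ 2 (p^(a_i) + r)` for all `i`, then for all `T ≥ 1`, all finite sets `S` of integers
  `t` with `|t| ≤ T` and imaginary quadratic fields `K_t` of discriminant `f(t)`,
  `∑_{t ∈ S} #Sur(Cl(K_t)[p^∞], H) ≤ C T ^ (1 + ε + ∑_i (n / 2 - (n + 1) / (2 (p^(a_i) + r))))`. -/
theorem result (f : ℤ[X]) (hf : NotSquare f) (p : ℕ) (hp : p.Prime) (r : ℕ) (hr : 1 ≤ r)
    (a : Fin r → ℕ) (H : Type) [CommGroup H] (e : H ≃* (∀ i, Multiplicative (ZMod (p ^ a i))))
    (ε : ℝ) (hε : 0 < ε) : ∃ C : ℝ, 0 < C ∧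
    (∀ N h : ℝ, 1 ≤ h → h ≤ N → (∀ i, LongEnough f.natDegree (p ^ a i) r N h) →
      ∀ (S : Finset ℤ) (K : ℤ → Fld), (∀ t ∈ S, ImaginaryQuadratic (f.eval t) (K t) ∧
        N ≤ |(t : ℝ)| ∧ |(t : ℝ)| ≤ N + h) →
      ∑ t ∈ S, (surjections p (Cl (K t)) H : ℝ) ≤
        C * N ^ ε * h * ∏ i, scale f.natDegree (p ^ a i) r N h) ∧
    ((∀ i, 3 * r * (f.natDegree + 1) ≤ 2 * (p ^ a i + r)) → ∀ T : ℝ, 1 ≤ T →
      ∀ (S : Finset ℤ) (K : ℤ → Fld), (∀ t ∈ S, ImaginaryQuadratic (f.eval t) (K t) ∧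
        |(t : ℝ)| ≤ T) →
      ∑ t ∈ S, (surjections p (Cl (K t)) H : ℝ) ≤
        C * T ^ (1 + ε + ∑ i, expo f.natDegree (p ^ a i) r)) := by
  classical
  have hl : ∀ i, 1 ≤ p ^ a i := fun i => Nat.one_le_pow _ _ hp.pos
  have hne : ∀ i, NeZero (p ^ a i) := fun i => ⟨(pow_pos hp.pos _).ne'⟩
  have hcnt := Pool.Agent.Y261.TG.cnt Pool.Agent.Y495.TG.ls Pool.Agent.Y759.TG.res
    Pool.Agent.Y907.TG.Sm.sm
  have hgrow := Pool.Agent.Y495.TG.grow
  have hsup := Pool.Agent.Y542.TQ.sup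
  choose c hc0 hc using fun i =>
    Pool.Agent.Y159.TG.short_g' hcnt hgrow hsup f hf (p ^ a i) r (hl i) hr ε hε
  have hne1 : Nonempty (Fin r) := ⟨⟨0, hr⟩⟩
  have hcpos : 0 < ∑ i, c i := Finset.sum_pos (fun i _ => hc0 i) Finset.univ_nonempty
  have hbound : ∀ K : Fld, NumberField K → (surjections p (Cl K) H : ℝ) ≤
      ∏ i, (Pool.Agent.Q100.HM.tor (ClassGroup (𝓞 K)) (p ^ a i) : ℝ) := by
    intro K hK
    have h1 := Pool.Agent.Q100.HM.surP_le p (ClassGroup (𝓞 K)) H r (fun i => p ^ a i) e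
    calc (surjections p (Cl K) H : ℝ) =
        (Pool.Agent.Q100.HM.surP p (ClassGroup (𝓞 K)) H : ℝ) := rfl
      _ ≤ ((∏ i, Pool.Agent.Q100.HM.tor (ClassGroup (𝓞 K)) (p ^ a i) : ℕ) : ℝ) := by
          exact_mod_cast h1
      _ = _ := by push_cast; rfl
  have hpart1 : ∀ N h : ℝ, 1 ≤ h → h ≤ N → (∀ i, LongEnough f.natDegree (p ^ a i) r N h) →
      ∀ (S : Finset ℤ) (K : ℤ → Fld), (∀ t ∈ S, ImaginaryQuadratic (f.eval t) (K t) ∧
        N ≤ |(t : ℝ)| ∧ |(t : ℝ)| ≤ N + h) →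
      ∑ t ∈ S, (surjections p (Cl (K t)) H : ℝ) ≤
        (∑ i, c i) * N ^ ε * h * ∏ i, scale f.natDegree (p ^ a i) r N h := by
    intro N h hh hhN hcond S K hS
    have hN : 0 < N := by linarith
    have hQ : 0 < h * N ^ f.natDegree := mul_pos (by linarith) (pow_pos hN _)
    obtain ⟨L, F, M, hL⟩ := Pool.Agent.Q100.HM.toFamily2 S K (fun t ht => by
      obtain ⟨⟨h1, -, h2, -⟩, -⟩ := hS t ht
      exact ⟨h2, h1⟩)
    have hwin : ∀ t ∈ S, (N ≤ |(t : ℝ)| ∧ |(t : ℝ)| ≤ N + h) ∧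
        Module.finrank ℚ (L t) = 2 ∧ NumberField.discr (L t) = f.eval t := by
      intro t ht
      obtain ⟨⟨-, -, h2, h3⟩, h4⟩ := hS t ht
      obtain ⟨h5, h6, -⟩ := hL t ht
      refine ⟨h4, h5, ?_⟩
      rw [h6, Pool.Agent.Q100.HM.dsc_eq (K t) h2, h3]
    refine (Finset.sum_le_sum fun t ht => hbound (K t) (hS t ht).1.2.2.1).trans ?_
    have hb : ∀ i, 0 < scale f.natDegree (p ^ a i) r N h := fun i =>
      div_pos (Real.sqrt_pos.2 (pow_pos hN _)) (Real.rpow_pos_of_pos hQ _)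
    have hmain := Pool.Agent.Q100.HM.sum_prod_le S r hr
      (fun i t => (Pool.Agent.Q100.HM.tor (ClassGroup (𝓞 (K t))) (p ^ a i) : ℝ))
      (fun i t _ => Nat.cast_nonneg _)
      (fun i => scale f.natDegree (p ^ a i) r N h) c hb (N ^ ε * h) ?_
    · refine hmain.trans (le_of_eq ?_)
      ring
    · intro i
      have h2 := hc i N h hh hhN (hcond i) S L hwin
      refine le_trans (le_of_eq (Finset.sum_congr rfl fun t ht => ?_))
        (h2.trans (le_of_eq ?_))
      · rw [(hL t ht).2.2 (p ^ a i)]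
        rfl
      · unfold scale
        ring
  by_cases hbig : ∀ i, 3 * r * (f.natDegree + 1) ≤ 2 * (p ^ a i + r)
  · choose d hd0 hd using fun i =>
      Pool.Agent.Y159.TG.full_g hcnt hgrow hsup f hf (p ^ a i) r (hl i) hr (hbig i) ε hε
    have hdpos : 0 < ∑ i, d i := Finset.sum_pos (fun i _ => hd0 i) Finset.univ_nonempty
    refine ⟨max (∑ i, c i) (∑ i, d i), lt_max_of_lt_left hcpos, ?_, ?_⟩
    · intro N h hh hhN hcond S K hS
      refine (hpart1 N h hh hhN hcond S K hS).trans ?_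
      have hN : 0 < N := by linarith
      have hQ : 0 < h * N ^ f.natDegree := mul_pos (by linarith) (pow_pos hN _)
      have hb : 0 ≤ ∏ i, scale f.natDegree (p ^ a i) r N h :=
        Finset.prod_nonneg fun i _ =>
          (div_pos (Real.sqrt_pos.2 (pow_pos hN _)) (Real.rpow_pos_of_pos hQ _)).le
      have hh0 : 0 ≤ h := by linarith
      gcongr
      exact le_max_left _ _
    · intro _ T hT S K hS
      have hT0 : 0 < T := by linarith
      obtain ⟨L, F, M, hL⟩ := Pool.Agent.Q100.HM.toFamily2 S K (fun t ht => by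
        obtain ⟨⟨h1, -, h2, -⟩, -⟩ := hS t ht
        exact ⟨h2, h1⟩)
      have hwin : ∀ t ∈ S, |(t : ℝ)| ≤ T ∧
          Module.finrank ℚ (L t) = 2 ∧ NumberField.discr (L t) = f.eval t := by
        intro t ht
        obtain ⟨⟨-, -, h2, h3⟩, h4⟩ := hS t ht
        obtain ⟨h5, h6, -⟩ := hL t ht
        refine ⟨h4, h5, ?_⟩
        rw [h6, Pool.Agent.Q100.HM.dsc_eq (K t) h2, h3]
      refine (Finset.sum_le_sum fun t ht => hbound (K t) (hS t ht).1.2.2.1).trans ?_
      have hb : ∀ i, 0 < T ^ expo f.natDegree (p ^ a i) r := fun i =>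
        Real.rpow_pos_of_pos hT0 _
      have hmain := Pool.Agent.Q100.HM.sum_prod_le S r hr
        (fun i t => (Pool.Agent.Q100.HM.tor (ClassGroup (𝓞 (K t))) (p ^ a i) : ℝ))
        (fun i t _ => Nat.cast_nonneg _)
        (fun i => T ^ expo f.natDegree (p ^ a i) r) d hb (T ^ (1 + ε)) ?_
      · refine hmain.trans ?_
        rw [Real.rpow_add hT0 (1 + ε), Real.rpow_sum_of_pos hT0, ← mul_assoc]
        gcongr
        exact le_max_right _ _
      · intro i
        have h2 := hd i T hT S L hwin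
        refine le_trans (le_of_eq (Finset.sum_congr rfl fun t ht => ?_))
          (h2.trans (le_of_eq ?_))
        · rw [(hL t ht).2.2 (p ^ a i)]
          rfl
        · rw [mul_assoc, ← Real.rpow_natCast (T ^ expo f.natDegree (p ^ a i) r) r,
            ← Real.rpow_mul hT0.le, ← Real.rpow_add hT0]
          congr 2
          unfold expo
          ring
  · exact ⟨∑ i, c i, hcpos, hpart1, fun h => absurd h hbig⟩

end Pool.Agent.Results.MP_0f260b_nt.PolynomialFamilyMoments
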