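import Pool.Agent.Y159.QS.Fin
import Pool.Agent.Q100.HM.Fields

set_option autoImplicit false

/-!
# The `H`-moments of the `p`-parts of the class groups of imaginary quadratic fields in short
intervals of discriminants

`p` is a prime number and `H ≅ ∏ ℤ/p^(a_i)`, `i < r`, an arbitrary finite abelian `p`-group.  The
number of surjective homomorphisms `Cl(K)[p^∞] → H` is bounded in the mean over the imaginary quadratic
fields `K` with `X ≤ |D_K| ≤ X + h` by `X ^ ε ∏_i √X / (h √X) ^ (1 / (p^(a_i) + r))`.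
-/

open NumberField

namespace Pool.Agent.Results.MP_0f260b_nt.ShortIntervalMoments

/-- The `p`-part `A[p^∞]` of a commutative group `A`. -/
def PPart (p : ℕ) (A : Type*) [CommGroup A] : Subgroup A :=
  Subgroup.closure {g : A | ∃ n : ℕ, g ^ (p ^ n) = 1}

/-- A subfield of `ℂ`. -/
abbrev Fld : Type := IntermediateField ℚ ℂ

/-- The class group of the ring of integers of `K`. -/
abbrev Cl (K : Fld) : Type := ClassGroup (𝓞 K)

/-- `#Sur(A[p^∞], H)`. -/
noncomputable def surjections (p : ℕ) (A H : Type) [CommGroup A] [CommGroup H] : ℕ :=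
  Nat.card {f : PPart p A →* H // Function.Surjective f}

/-- `K` is a quadratic field. -/
def Quadratic (K : Fld) : Prop := Module.finrank ℚ K = 2

/-- `K` is an imaginary quadratic field (every imaginary quadratic field is isomorphic to exactly one
subfield of `ℂ`) with `X ≤ |D_K| ≤ Y`. -/
def ImaginaryQuadratic (X Y : ℝ) (K : Fld) : Prop :=
  Quadratic K ∧ (∃ x : K, (x : ℂ).im ≠ 0) ∧
    ∃ _ : NumberField K, X ≤ |((discr K : ℤ) : ℝ)| ∧ |((discr K : ℤ) : ℝ)| ≤ Y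

/-- The bound `√X / (h √X) ^ (1 / (l + r))` for the `r`-th root of the `r`-th moment of the number of
elements of the class group killed by `l`. -/
noncomputable def scale (l r : ℕ) (X h : ℝ) : ℝ := √X / (h * √X) ^ (1 / ((l : ℝ) + r))

/-- The interval `[X, X + h]` is not too short: `(h √X) ^ (3 r / (l + r)) ≤ h`. -/
def LongEnough (l r : ℕ) (X h : ℝ) : Prop := (h * √X) ^ (3 * (r : ℝ) / ((l : ℝ) + r)) ≤ h

/-- **Theorem.** Let `p` be a prime number, `r ≥ 1`, `a_i ≥ 0` for `i < r`, `H ≅ ∏ ℤ/p^(a_i)` and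
`ε > 0`.  There is a constant `C` such that for all real numbers `1 ≤ h ≤ X` with
`(h √X) ^ (3 r / (p^(a_i) + r)) ≤ h` for all `i`, and all finite sets `S` of imaginary quadratic
fields `K` with `X ≤ |D_K| ≤ X + h`,
`∑_{K ∈ S} #Sur(Cl(K)[p^∞], H) ≤ C X ^ ε h ∏_i √X / (h √X) ^ (1 / (p^(a_i) + r))`. -/
theorem result (p : ℕ) (hp : p.Prime) (r : ℕ) (hr : 1 ≤ r) (a : Fin r → ℕ)
    (H : Type) [CommGroup H] (e : H ≃* (∀ i, Multiplicative (ZMod (p ^ a i))))
    (ε : ℝ) (hε : 0 < ε) : ∃ C : ℝ, 0 < C ∧ ∀ X h : ℝ, 1 ≤ h → h ≤ X →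
      (∀ i, LongEnough (p ^ a i) r X h) →
      ∀ S : Finset Fld, (∀ K ∈ S, ImaginaryQuadratic X (X + h) K) →
      ∑ K ∈ S, (surjections p (Cl K) H : ℝ) ≤ C * X ^ ε * h * ∏ i, scale (p ^ a i) r X h := by
  have hl : ∀ i, 1 ≤ p ^ a i := fun i => Nat.one_le_pow _ _ hp.pos
  have hne : ∀ i, NeZero (p ^ a i) := fun i => ⟨(pow_pos hp.pos _).ne'⟩
  choose c hc0 hc using fun i => Pool.Agent.Y159.QS.short' (p ^ a i) r (hl i) hr ε hε
  have hCpos : 0 < ∑ i, c i := by
    have : Nonempty (Fin r) := ⟨⟨0, hr⟩⟩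
    exact Finset.sum_pos (fun i _ => hc0 i) Finset.univ_nonempty
  refine ⟨∑ i, c i, hCpos, ?_⟩
  intro X h hh hhX hcond S hS
  have hX : 0 < X := by linarith
  have hQ : 0 < h * √X := mul_pos (by linarith) (Real.sqrt_pos.2 hX)
  have hS' : ∀ K ∈ S, NumberField K ∧ Module.finrank ℚ K = 2 := fun K hK => by
    obtain ⟨h1, -, h2, -⟩ := hS K hK
    exact ⟨h2, h1⟩
  obtain ⟨L, F, N, hL, hsum⟩ := Pool.Agent.Q100.HM.toFamily S hS'
  have hwin : ∀ D ∈ S.image Pool.Agent.Q100.HM.dsc, (X ≤ |(D : ℝ)| ∧ |(D : ℝ)| ≤ X + h) ∧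
      Module.finrank ℚ (L D) = 2 ∧ NumberField.discr (L D) = D := by
    intro D hD
    refine ⟨?_, hL D hD⟩
    obtain ⟨K, hK, rfl⟩ := Finset.mem_image.1 hD
    obtain ⟨-, -, h1, h3, h4⟩ := hS K hK
    rw [Pool.Agent.Q100.HM.dsc_eq K h1]
    exact ⟨h3, h4⟩
  have hbound : ∀ K ∈ S, (surjections p (Cl K) H : ℝ) ≤
      ∏ i, (Pool.Agent.Q100.HM.tor (ClassGroup (𝓞 K)) (p ^ a i) : ℝ) := by
    intro K hK
    have := (hS' K hK).1
    have h1 := Pool.Agent.Q100.HM.surP_le p (ClassGroup (𝓞 K)) H r (fun i => p ^ a i) e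
    calc (surjections p (Cl K) H : ℝ) = (Pool.Agent.Q100.HM.surP p (ClassGroup (𝓞 K)) H : ℝ) := rfl
      _ ≤ ((∏ i, Pool.Agent.Q100.HM.tor (ClassGroup (𝓞 K)) (p ^ a i) : ℕ) : ℝ) := by
          exact_mod_cast h1
      _ = _ := by push_cast; rfl
  refine (Finset.sum_le_sum hbound).trans ?_
  have hb : ∀ i, 0 < scale (p ^ a i) r X h := fun i =>
    div_pos (Real.sqrt_pos.2 hX) (Real.rpow_pos_of_pos hQ _)
  have hmain := Pool.Agent.Q100.HM.sum_prod_le S r hr
    (fun i K => (Pool.Agent.Q100.HM.tor (ClassGroup (𝓞 K)) (p ^ a i) : ℝ))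
    (fun i K _ => Nat.cast_nonneg _)
    (fun i => scale (p ^ a i) r X h) c hb (X ^ ε * h) ?_
  · refine hmain.trans (le_of_eq ?_)
    ring
  · intro i
    have h1 := hsum (fun n => (n : ℝ) ^ r) (p ^ a i)
    have h2 := hc i X h hh hhX (hcond i) _ L hwin
    refine (le_of_eq h1).trans (h2.trans (le_of_eq ?_))
    unfold scale
    ring

end Pool.Agent.Results.MP_0f260b_nt.ShortIntervalMoments
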